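import Pool.Agent.Lib.Selector.Abstract

/-!
The determinantal polynomials of a Gram matrix and the finite selector theorem.
-/

namespace Pool.Agent.Lib.Selector

open Function Matrix Complex
open scoped InnerProductSpace ComplexOrder

section det
variable {V : Type*} [DecidableEq V] [Fintype V]
variable {E : Type*} [NormedAddCommGroup E] [InnerProductSpace ℂ E]

/-- `diagonal z - gram u` with the columns in `S` replaced by unit vectors. -/
noncomputable def MS (u : V → E) (S : Finset V) (z : V → ℂ) : Matrix V V ℂ :=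
  Matrix.of fun k l => if l ∈ S then (if k = l then 1 else 0)
    else ((if k = l then z k else 0) - ⟪u k, u l⟫_ℂ)

/-- The determinant of `MS`. -/
noncomputable def PS (u : V → E) (S : Finset V) : (V → ℂ) → ℂ := fun z => (MS u S z).det

omit [Fintype V] in
theorem MS_insert (u : V → E) (S : Finset V) (z : V → ℂ) (j : V) :
    MS u (insert j S) z = (MS u S z).updateCol j (Pi.single j 1) := by
  ext k l
  by_cases h : l = j
  · subst h; simp [MS, Pi.single_apply]
  · simp [MS, h]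

theorem PS_update (u : V → E) (S : Finset V) (z : V → ℂ) {j : V} (hj : j ∉ S) (t : ℂ) :
    PS u S (update z j t) = PS u S (update z j 0) + t * PS u (insert j S) z := by
  have e : ∀ t : ℂ, MS u S (update z j t) = (MS u S z).updateCol j
      ((fun k => - ⟪u k, u j⟫_ℂ) + t • (Pi.single j 1 : V → ℂ)) := by
    intro t
    ext k l
    by_cases h : l = j
    · subst h
      by_cases hk : k = l
      · subst hk; simp [MS, hj]; ring
      · simp [MS, hj, hk]
    · by_cases hk : k = l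
      · subst hk; simp [MS, h]
      · simp [MS, h, hk]
  simp only [PS]
  rw [e, e, det_updateCol_add, det_updateCol_add, det_updateCol_smul, det_updateCol_smul, MS_insert]
  ring

theorem D_PS (u : V → E) (S : Finset V) {j : V} (hj : j ∉ S) :
    D j (PS u S) = PS u (insert j S) := by
  funext z
  simp only [D]
  rw [PS_update u S z hj 1]; ring

theorem DL_PS (u : V → E) (l : List V) (hl : l.Nodup) (S : Finset V) (hS : ∀ x ∈ l, x ∉ S) :
    DL l (PS u S) = PS u (S ∪ l.toFinset) := by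
  induction l generalizing S with
  | nil => simp [DL]
  | cons i l ih =>
    have hl' := List.nodup_cons.mp hl
    simp only [DL]
    rw [D_PS u S (hS i (by simp)), ih hl'.2]
    · congr 1; ext x; simp
    · intro x hx hx'
      rcases Finset.mem_insert.mp hx' with rfl | h
      · exact hl'.1 hx
      · exact hS x (by simp [hx]) h

theorem quad_form (u : V → E) (z x : V → ℂ) :
    ∑ k, (starRingEnd ℂ) (x k) * (MS u ∅ z *ᵥ x) k =
      ∑ k, z k * (‖x k‖ ^ 2 : ℝ) - ((‖∑ l, x l • u l‖ ^ 2 : ℝ) : ℂ) := by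
  have h1 : ((‖∑ l, x l • u l‖ ^ 2 : ℝ) : ℂ) = ⟪∑ l, x l • u l, ∑ l, x l • u l⟫_ℂ := by
    rw [inner_self_eq_norm_sq_to_K]; simp
  rw [h1, sum_inner, ← Finset.sum_sub_distrib]
  refine Finset.sum_congr rfl fun k _ => ?_
  rw [inner_smul_left, inner_sum]
  simp only [MS, mulVec, dotProduct, of_apply, Finset.notMem_empty, if_false, sub_mul,
    Finset.sum_sub_distrib, inner_smul_right, ite_mul, zero_mul, Finset.sum_ite_eq,
    Finset.mem_univ, if_true, mul_sub]
  congr 1
  · rw [← normSq_eq_norm_sq, normSq_eq_conj_mul_self]; ring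
  · congr 1
    refine Finset.sum_congr rfl fun l _ => ?_
    ring

theorem good_PS (u : V → E) : Good (PS u ∅) := by
  refine ⟨?_, ?_, ?_, ?_⟩
  · intro i z t
    rw [D_PS u ∅ (by simp)]
    exact PS_update u ∅ z (by simp) t
  · unfold PS
    apply Continuous.matrix_det
    refine continuous_pi fun k => continuous_pi fun l => ?_
    simp only [MS, of_apply, Finset.notMem_empty, if_false]
    split_ifs <;> fun_prop
  · intro y
    have h : (MS u ∅ (ofR y))ᴴ = MS u ∅ (ofR y) := by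
      ext k l
      by_cases hk : k = l
      · subst hk; simp [MS, ofR]
      · simp [MS, hk, Ne.symm hk]
    have h2 := det_conjTranspose (MS u ∅ (ofR y))
    rw [h] at h2
    exact conj_eq_iff_im.mp h2.symm
  · intro z hz h0
    obtain ⟨x, hx, hx0⟩ := exists_mulVec_eq_zero_iff.mpr h0
    have h1 := quad_form u z x
    rw [hx0] at h1
    have h2 := congrArg Complex.im h1
    simp only [Pi.zero_apply, mul_zero, Finset.sum_const_zero, zero_im, sub_im, im_sum, mul_im,
      ofReal_im, ofReal_re, zero_add, sub_zero] at h2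
    have h3 := (Finset.sum_eq_zero_iff_of_nonneg (fun k _ =>
      mul_nonneg (hz k).le (sq_nonneg ‖x k‖))).mp h2.symm
    apply hx
    funext k
    have := h3 k (Finset.mem_univ k)
    have h4 := (hz k).ne'
    simpa [h4] using this

theorem form_lower (u : V → E) (hB : ∀ x : V → ℂ, ‖∑ l, x l • u l‖ ^ 2 ≤ ∑ l, ‖x l‖ ^ 2)
    (hε : ∀ l, ‖u l‖ ≤ 1 / 10) {y : V → ℝ} (hy : ∀ k, 11 / 10 ≤ y k) (x : V → ℂ) (j : V) :
    99 / 100 * ‖x j‖ ^ 2 ≤ ∑ k, y k * ‖x k‖ ^ 2 - ‖∑ l, x l • u l‖ ^ 2 := by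
  set x' := update x j 0 with hx'
  have e1 : ∑ l, x l • u l = x j • u j + ∑ l, x' l • u l := by
    rw [← Finset.add_sum_erase _ _ (Finset.mem_univ j),
      ← Finset.add_sum_erase _ (fun l => x' l • u l) (Finset.mem_univ j)]
    simp only [hx', update_self, zero_smul, zero_add, add_right_inj]
    refine Finset.sum_congr rfl fun l hl => ?_
    rw [update_of_ne (Finset.ne_of_mem_erase hl)]
  have e2 : ∑ l, ‖x l‖ ^ 2 = ‖x j‖ ^ 2 + ∑ l, ‖x' l‖ ^ 2 := by
    rw [← Finset.add_sum_erase _ _ (Finset.mem_univ j),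
      ← Finset.add_sum_erase _ (fun l => ‖x' l‖ ^ 2) (Finset.mem_univ j)]
    simp only [hx', update_self, norm_zero, add_right_inj]
    rw [zero_pow two_ne_zero, zero_add]
    refine Finset.sum_congr rfl fun l hl => ?_
    rw [update_of_ne (Finset.ne_of_mem_erase hl)]
  have h3 : 11 / 10 * ∑ l, ‖x l‖ ^ 2 ≤ ∑ k, y k * ‖x k‖ ^ 2 := by
    rw [Finset.mul_sum]
    exact Finset.sum_le_sum fun k _ => mul_le_mul_of_nonneg_right (hy k) (sq_nonneg _)
  have h4 := hB x'
  have h5 : ‖x j • u j‖ ≤ ‖x j‖ / 10 := by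
    rw [norm_smul]; have := hε j; have := norm_nonneg (x j); nlinarith
  have h6 := norm_add_le (x j • u j) (∑ l, x' l • u l)
  rw [← e1] at h6
  set a := ‖x j‖
  set w := ‖∑ l, x' l • u l‖
  set n := ‖∑ l, x l • u l‖
  have hn : 0 ≤ n := norm_nonneg _
  have h7 : n ≤ a / 10 + w := by linarith
  have h8 : n ^ 2 ≤ (a / 10 + w) ^ 2 := by gcongr
  nlinarith [sq_nonneg (a - w)]

theorem ratio (u : V → E) (hB : ∀ x : V → ℂ, ‖∑ l, x l • u l‖ ^ 2 ≤ ∑ l, ‖x l‖ ^ 2)
    (hε : ∀ l, ‖u l‖ ≤ 1 / 10) {y : V → ℝ} (hy : ∀ k, 11 / 10 ≤ y k) (S : Finset V) {j : V}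
    (hj : j ∉ S) {r : ℝ} (hr : 0 < r) (hP : PS u (insert j S) (ofR y) = r) :
    ∃ s : ℝ, 99 / 100 * r ≤ s ∧ PS u S (ofR y) = s := by
  set x := cramer (MS u S (ofR y)) (Pi.single j 1) with hx
  have hxj : x j = r := by
    rw [hx, cramer_apply, ← MS_insert]; exact hP
  have hM : MS u S (ofR y) *ᵥ x = (PS u S (ofR y)) • (Pi.single j 1 : V → ℂ) := mulVec_cramer _ _
  set x' : V → ℂ := fun k => if k ∈ S then 0 else x k with hx'
  have hx'j : x' j = r := by simp [hx', hj, hxj]
  have h1 : ∀ k, k ∉ S → (MS u ∅ (ofR y) *ᵥ x') k = (MS u S (ofR y) *ᵥ x) k := by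
    intro k hk
    simp only [mulVec, dotProduct, MS, of_apply, hx']
    refine Finset.sum_congr rfl fun l _ => ?_
    by_cases hl : l ∈ S
    · have : k ≠ l := by rintro rfl; exact hk hl
      simp [hl, this]
    · simp [hl]
  have h2 : ∑ k, (starRingEnd ℂ) (x' k) * (MS u ∅ (ofR y) *ᵥ x') k = r * PS u S (ofR y) := by
    rw [Finset.sum_eq_single j]
    · rw [h1 j hj, hM, hx'j]; simp
    · intro k _ hkj
      by_cases hk : k ∈ S
      · simp [hx', hk]
      · rw [h1 k hk, hM]; simp [hkj]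
    · simp
  rw [quad_form] at h2
  have h3 := form_lower u hB hε hy x' j
  rw [hx'j] at h3
  set q := ∑ k, y k * ‖x' k‖ ^ 2 - ‖∑ l, x' l • u l‖ ^ 2 with hq
  have h4 : (q : ℂ) = r * PS u S (ofR y) := by
    rw [← h2, hq]; simp [ofR]
  refine ⟨q / r, ?_, ?_⟩
  · rw [le_div_iff₀ hr]
    simp only [norm_real, Real.norm_eq_abs, sq_abs] at h3
    nlinarith
  · have : (r : ℂ) ≠ 0 := by exact_mod_cast hr.ne'
    rw [ofReal_div, h4]; field_simp

theorem PS_pos (u : V → E) (hB : ∀ x : V → ℂ, ‖∑ l, x l • u l‖ ^ 2 ≤ ∑ l, ‖x l‖ ^ 2)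
    (hε : ∀ l, ‖u l‖ ≤ 1 / 10) {y : V → ℝ} (hy : ∀ k, 11 / 10 ≤ y k) (S : Finset V) :
    ∃ r : ℝ, 0 < r ∧ PS u S (ofR y) = r := by
  refine Finset.strongDownwardInduction (n := Fintype.card V)
    (p := fun S => ∃ r : ℝ, 0 < r ∧ PS u S (ofR y) = r) ?_ S (Finset.card_le_univ S)
  intro S ih _
  by_cases hS : S = Finset.univ
  · subst hS
    refine ⟨1, one_pos, ?_⟩
    have : MS u Finset.univ (ofR y) = 1 := by
      ext k l; simp [MS, one_apply]
    simp [PS, this]
  · obtain ⟨j, hj⟩ : ∃ j, j ∉ S := by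
      by_contra h
      push Not at h
      exact hS (Finset.eq_univ_of_forall h)
    obtain ⟨r, hr, hP⟩ := ih (Finset.card_le_univ (insert j S)) (Finset.ssubset_insert hj)
    obtain ⟨s, hs, hs'⟩ := ratio u hB hε hy S hj hr hP
    exact ⟨s, by linarith, hs'⟩

theorem PS_eq_zero (u : V → E) (S : Finset V) (z v : V → ℂ) (hv : v ≠ 0)
    (hS : ∀ k ∈ S, v k = 0) (h : ∀ k, k ∉ S → (MS u ∅ z *ᵥ v) k = 0) : PS u S z = 0 := by
  refine exists_mulVec_eq_zero_iff.mp
    ⟨fun k => if k ∈ S then -(MS u ∅ z *ᵥ v) k else v k, ?_, ?_⟩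
  · intro h0
    apply hv
    funext k
    by_cases hk : k ∈ S
    · exact hS k hk
    · simpa [hk] using congrFun h0 k
  · funext k
    have e : (MS u S z *ᵥ fun k => if k ∈ S then -(MS u ∅ z *ᵥ v) k else v k) k =
        (if k ∈ S then -(MS u ∅ z *ᵥ v) k else 0) + (MS u ∅ z *ᵥ v) k := by
      have e1 : (if k ∈ S then -(MS u ∅ z *ᵥ v) k else 0) =
          ∑ l, if k = l then (if l ∈ S then -(MS u ∅ z *ᵥ v) l else 0) else 0 := by simp
      rw [e1]
      conv_rhs => rw [mulVec, dotProduct]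
      rw [mulVec, dotProduct, ← Finset.sum_add_distrib]
      refine Finset.sum_congr rfl fun l _ => ?_
      by_cases hl : l ∈ S
      · by_cases hkl : k = l
        · simp [MS, hl, hS l hl, hkl]
        · simp [MS, hl, hS l hl, hkl]
      · simp [MS, hl]
    rw [e]
    by_cases hk : k ∈ S
    · simp [hk]
    · simp [hk, h k hk]

end det

/-- Finite selector theorem: from each pair of short vectors of a Bessel family with bound `1`
one can select one vector so that the selected family has Bessel bound `9/10`. -/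
theorem selector_finite {ι : Type*} [DecidableEq ι] [Fintype ι]
    {E : Type*} [NormedAddCommGroup E] [InnerProductSpace ℂ E] (u : ι × Bool → E)
    (hB : ∀ x : ι × Bool → ℂ, ‖∑ l, x l • u l‖ ^ 2 ≤ ∑ l, ‖x l‖ ^ 2)
    (hε : ∀ l, ‖u l‖ ≤ 1 / 10) :
    ∃ τ : ι → Bool, ∀ c : ι → ℂ, ‖∑ i, c i • u (i, τ i)‖ ^ 2 ≤ 9 / 10 * ∑ i, ‖c i‖ ^ 2 := by
  have hGB : GB (fun _ => (2 : ℝ)) Set.univ (PS u ∅) := by
    refine ⟨good_PS u, fun l hl _ => ?_⟩
    rw [DL_PS u l hl ∅ (by simp)]
    obtain ⟨r, hr, hP⟩ := PS_pos u hB hε (y := fun _ => 2) (fun _ => by norm_num) (∅ ∪ l.toFinset)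
    simp only [R]; rw [hP]; simpa using hr
  have hI : Inv (100 / 99) Set.univ (R (PS u ∅)) (fun _ => 11 / 10) := by
    intro y hy
    obtain ⟨r, hr, hP⟩ := PS_pos u hB hε (y := y) hy ∅
    refine ⟨by simp only [R]; rw [hP]; simpa using hr, fun j _ => ?_⟩
    obtain ⟨r', hr', hP'⟩ := PS_pos u hB hε (y := y) hy (insert j ∅)
    obtain ⟨s, hs, hs'⟩ := ratio u hB hε hy ∅ (by simp) hr' hP'
    rw [← R_D, D_PS u ∅ (by simp)]
    simp only [R]; rw [hP', hs']; simp only [ofReal_re]; linarith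
  obtain ⟨σ, hσ⟩ := select_of_inv (δ := 1 / 5) (by norm_num) (by norm_num) (by norm_num) hGB hI
  have hnd : ((Finset.univ : Finset ι).toList.map fun i => (i, σ i)).Nodup :=
    (Finset.nodup_toList _).map (fun i j h => (Prod.mk.inj h).1)
  rw [DL_PS u _ hnd ∅ (by simp)] at hσ
  set S := ∅ ∪ ((Finset.univ : Finset ι).toList.map fun i => (i, σ i)).toFinset with hSdef
  have hS : ∀ v : ι × Bool, v ∈ S ↔ v.2 = σ v.1 := by
    rintro ⟨i, c⟩
    simp [hSdef, eq_comm]
  refine ⟨fun i => !σ i, ?_⟩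
  set w : ι → E := fun i => u (i, !σ i) with hw
  set H : Matrix ι ι ℂ := ((9 / 10 : ℝ) : ℂ) • (1 : Matrix ι ι ℂ) - gram ℂ w with hH
  have hHerm : H.IsHermitian := by
    refine IsHermitian.sub ?_ (isHermitian_gram ℂ w)
    ext k l
    by_cases h : k = l
    · subst h; simp
    · simp [h, Ne.symm h]
  have hpsd : H.PosSemidef := by
    rw [hHerm.posSemidef_iff_eigenvalues_nonneg]
    intro i
    by_contra hneg
    simp only [Pi.zero_apply, not_le] at hneg
    set lam := hHerm.eigenvalues i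
    set v : ι → ℂ := ⇑(hHerm.eigenvectorBasis i) with hv
    have hev : H *ᵥ v = lam • v := hHerm.mulVec_eigenvectorBasis i
    have hv0 : v ≠ 0 := by
      intro h0
      have h1 := (hHerm.eigenvectorBasis.orthonormal.1 i)
      have : hHerm.eigenvectorBasis i = 0 := by
        ext k; exact congrFun h0 k
      rw [this] at h1; simp at h1
    have h2 := hσ (9 / 10 - lam) (by linarith)
    have h3 : PS u S (ofR fun _ => 9 / 10 - lam) = 0 := by
      refine PS_eq_zero u S _ (fun k => if k.2 = σ k.1 then 0 else v k.1) ?_ ?_ ?_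
      · intro h0
        apply hv0
        funext k
        simpa using congrFun h0 (k, !σ k)
      · intro k hk; simp [(hS k).mp hk]
      · rintro ⟨k, c⟩ hk
        rw [hS] at hk
        have hc : c = !σ k := by cases c <;> cases h : σ k <;> simp_all
        subst hc
        have h4 := congrFun hev k
        simp only [hH, sub_mulVec, smul_mulVec, one_mulVec, Pi.sub_apply, Pi.smul_apply,
          smul_eq_mul, real_smul] at h4
        have h5 : (MS u ∅ (ofR fun _ => 9 / 10 - lam) *ᵥ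
            fun k => if k.2 = σ k.1 then 0 else v k.1) (k, !σ k) =
            ((9 / 10 - lam : ℝ) : ℂ) * v k - (gram ℂ w *ᵥ v) k := by
          simp only [mulVec, dotProduct, MS, of_apply, Finset.notMem_empty, if_false, sub_mul,
            Finset.sum_sub_distrib, ite_mul, zero_mul, Finset.sum_ite_eq, Finset.mem_univ, if_true,
            ofR, gram_apply, hw]
          congr 1
          · simp
          · rw [Fintype.sum_prod_type]
            refine Finset.sum_congr rfl fun l _ => ?_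
            cases h : σ l <;> simp [h]
        rw [h5]
        push_cast at h4 ⊢
        linear_combination h4
    simp only [R] at h2
    rw [h3] at h2
    simp at h2
  intro c
  have h6 := hpsd.re_dotProduct_nonneg c
  rw [hH, sub_mulVec, dotProduct_sub, star_dotProduct_gram_mulVec, smul_mulVec, one_mulVec,
    dotProduct_smul, inner_self_eq_norm_sq_to_K] at h6
  have h7 : star c ⬝ᵥ c = ((∑ i, ‖c i‖ ^ 2 : ℝ) : ℂ) := by
    simp only [dotProduct, Pi.star_apply]
    push_cast
    refine Finset.sum_congr rfl fun i _ => ?_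
    rw [star_def, conj_mul']
  rw [h7] at h6
  have h8 : (((9 / 10 : ℝ) : ℂ) • ((∑ i, ‖c i‖ ^ 2 : ℝ) : ℂ) - ((‖∑ i, c i • w i‖ : ℝ) : ℂ) ^ 2) =
      ((9 / 10 * ∑ i, ‖c i‖ ^ 2 - ‖∑ i, c i • w i‖ ^ 2 : ℝ) : ℂ) := by
    push_cast; simp
  have h9 : 0 ≤ 9 / 10 * ∑ i, ‖c i‖ ^ 2 - ‖∑ i, c i • w i‖ ^ 2 := by
    have : RCLike.re (((9 / 10 * ∑ i, ‖c i‖ ^ 2 - ‖∑ i, c i • w i‖ ^ 2 : ℝ) : ℂ)) =
      9 / 10 * ∑ i, ‖c i‖ ^ 2 - ‖∑ i, c i • w i‖ ^ 2 := ofReal_re _
    rw [← this, ← h8]
    exact h6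
  linarith

end Pool.Agent.Lib.Selector
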