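import Pool.Agent.Lib.Selector.Stable

/-!
The abstract selection theorem for pairs of variables.
-/

namespace Pool.Agent.Lib.Selector

open Function

variable {ι : Type*} [DecidableEq ι] [Fintype ι]

/-- Sum of the two derivatives in the pair `i`. -/
def A (i : ι) (p : (ι × Bool → ℂ) → ℂ) : (ι × Bool → ℂ) → ℂ :=
  D (i, false) p + D (i, true) p

/-- Iteration of `A` along a list. -/
def AL : List ι → ((ι × Bool → ℂ) → ℂ) → ((ι × Bool → ℂ) → ℂ)
  | [], p => p
  | i :: l, p => AL l (A i p)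

omit [Fintype ι] in
theorem AL_add (l : List ι) (p q : (ι × Bool → ℂ) → ℂ) : AL l (p + q) = AL l p + AL l q := by
  induction l generalizing p q with
  | nil => rfl
  | cons i l ih =>
    simp only [AL]
    rw [← ih]; congr 1
    simp only [A, D_add]; abel

omit [Fintype ι] in
theorem AL_D (l : List ι) (v : ι × Bool) (p : (ι × Bool → ℂ) → ℂ) :
    AL l (D v p) = D v (AL l p) := by
  induction l generalizing p with
  | nil => rfl
  | cons i l ih =>
    simp only [AL]
    rw [← ih]; congr 1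
    simp only [A, D_add]
    rw [D_comm v, D_comm v]

/-- Good and big. -/
structure GB (T : ι × Bool → ℝ) (U : Set (ι × Bool)) (p : (ι × Bool → ℂ) → ℂ) : Prop where
  good : Good p
  big : Big T U p

theorem GB.D {T : ι × Bool → ℝ} {U : Set (ι × Bool)} {p : (ι × Bool → ℂ) → ℂ} (h : GB T U p)
    {v : ι × Bool} (hv : v ∈ U) : GB T (U \ {v}) (D v p) :=
  ⟨h.good.D v (h.big.D hv).ne, h.big.D hv⟩

omit [Fintype ι] in
theorem GB.mono {T : ι × Bool → ℝ} {U U' : Set (ι × Bool)} {p : (ι × Bool → ℂ) → ℂ} (h : GB T U p)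
    (hU : U' ⊆ U) : GB T U' p := ⟨h.good, h.big.mono hU⟩

theorem GB.A {T : ι × Bool → ℝ} {U : Set (ι × Bool)} {p : (ι × Bool → ℂ) → ℂ} (h : GB T U p)
    {i : ι} (hi : ∀ c, (i, c) ∈ U) : GB T {v | v ∈ U ∧ v.1 ≠ i} (A i p) := by
  have h0 := h.D (hi false)
  have h1 := h.D (hi true)
  refine ⟨h.good.DD h0.good h1.good, Big.add (h0.big.mono ?_) (h1.big.mono ?_)⟩
  · rintro v ⟨hv, hv'⟩; exact ⟨hv, by rintro rfl; exact hv' rfl⟩
  · rintro v ⟨hv, hv'⟩; exact ⟨hv, by rintro rfl; exact hv' rfl⟩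

theorem GB.AL {T : ι × Bool → ℝ} (l : List ι) (hl : l.Nodup) {U : Set (ι × Bool)}
    {p : (ι × Bool → ℂ) → ℂ} (h : GB T U p) (hU : ∀ i ∈ l, ∀ c, (i, c) ∈ U) :
    GB T {v | v ∈ U ∧ v.1 ∉ l} (AL l p) := by
  induction l generalizing U p with
  | nil => simpa [Selector.AL] using h
  | cons i l ih =>
    have hl' := List.nodup_cons.mp hl
    have h1 := h.A (hU i (by simp))
    have h2 := ih hl'.2 h1 (fun j hj c => ⟨hU j (by simp [hj]) c, by
      rintro rfl; exact hl'.1 hj⟩)
    refine h2.mono ?_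
    rintro v ⟨hv, hv'⟩
    simp only [List.mem_cons, not_or] at hv'
    exact ⟨⟨hv, hv'.1⟩, hv'.2⟩

/-- The selection theorem: if the averaged polynomial is positive on an orthant, so is one of
the selected ones. -/
theorem select (T z : ι × Bool → ℝ) (hT : z ≤ T) (l : List ι) (hl : l.Nodup)
    {U : Set (ι × Bool)} {p : (ι × Bool → ℂ) → ℂ} (h : GB T U p) (hU : ∀ i ∈ l, ∀ c, (i, c) ∈ U)
    (hpos : ∀ y, z ≤ y → 0 < R (AL l p) y) :
    ∃ σ : ι → Bool, ∀ y, z ≤ y → 0 < R (DL (l.map fun i => (i, σ i)) p) y := by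
  induction l generalizing U p with
  | nil => exact ⟨fun _ => false, hpos⟩
  | cons i l ih =>
    have hl' := List.nodup_cons.mp hl
    have hr := h.AL l hl'.2 (fun j hj => hU j (by simp [hj]))
    set r := AL l p with hrdef
    have hi : ∀ c, (i, c) ∈ {v | v ∈ U ∧ v.1 ∉ l} := fun c => ⟨hU i (by simp) c, hl'.1⟩
    have hA : AL (i :: l) p = A i r := by
      simp only [AL, A]; rw [AL_add, AL_D, AL_D]
    rw [hA] at hpos
    have hAr := hr.A hi
    have hg : ∀ y, z ≤ y → 0 < D (i, true) (D (i, false) (R r)) y := by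
      intro y hy
      have e : D (i, true) (R (A i r)) = D (i, true) (D (i, false) (R r)) := by
        rw [A, R_add, D_add, R_D, R_D, D_D_self, add_zero]
      rw [← e]
      refine hAr.good.ray.D_pos hpos _ hT ?_ hy
      rw [e, ← R_D, ← R_D]
      exact ((hr.D (hi false)).D (v := (i, true)) ⟨hi true, by simp⟩).big.pos.ne'
    have hz := hpos z le_rfl
    rw [A, R_add, Pi.add_apply] at hz
    have : ∃ c, ∀ y, z ≤ y → 0 < R (D (i, c) r) y := by
      by_cases h0 : 0 < R (D (i, false) r) z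
      · refine ⟨false, fun y hy => pos_of_corner (hr.D (hi false)).good.ray (i, true) ?_ h0 hy⟩
        intro y hy; rw [R_D]; exact hg y hy
      · have h1 : 0 < R (D (i, true) r) z := by linarith
        refine ⟨true, fun y hy => pos_of_corner (hr.D (hi true)).good.ray (i, false) ?_ h1 hy⟩
        intro y hy; rw [R_D, D_comm]; exact hg y hy
    obtain ⟨c, hc⟩ := this
    rw [hrdef, ← AL_D] at hc
    obtain ⟨σ, hσ⟩ := ih hl'.2 (h.D (hU i (by simp) c))
      (fun j hj c' => ⟨hU j (by simp [hj]) c', by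
        intro h; simp only [Set.mem_singleton_iff, Prod.mk.injEq] at h
        exact hl'.1 (h.1 ▸ hj)⟩) hc
    refine ⟨update σ i c, fun y hy => ?_⟩
    have e : l.map (fun j => (j, update σ i c j)) = l.map (fun j => (j, σ j)) := by
      apply List.map_congr_left
      intro j hj
      rw [update_of_ne]; rintro rfl; exact hl'.1 hj
    simp only [List.map_cons, DL, update_self]
    rw [e]
    exact hσ y hy

/-- The barrier argument. -/
theorem barrier {φ δ : ℝ} (hδ : 0 ≤ δ) (hφδ : 4 * φ * δ ≤ 1) (T : ι × Bool → ℝ)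
    (l : List ι) (hl : l.Nodup) {U : Set (ι × Bool)} {p : (ι × Bool → ℂ) → ℂ} (h : GB T U p)
    (hU : ∀ i ∈ l, ∀ c, (i, c) ∈ U) {z : ι × Bool → ℝ} (hT : z ≤ T) (hI : Inv φ U (R p) z) :
    ∀ y, (fun v => if v.1 ∈ l then z v - δ else z v) ≤ y → 0 < R (AL l p) y := by
  induction l generalizing U p z with
  | nil => intro y hy; exact (hI y (by simpa using hy)).1
  | cons i l ih =>
    have hl' := List.nodup_cons.mp hl
    have hi := hU i (by simp)
    have hne : D (i, false) (R p) T ≠ 0 := by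
      rw [← R_D]; exact (h.D (hi false)).big.pos.ne'
    have h1 := barrier_step h.good.ray hδ hφδ hI (a := (i, false)) (b := (i, true)) (by simp)
      (hi false) (hi true) hT hne
    rw [← R_D, ← R_D, ← R_add] at h1
    set z' := update (update z (i, false) (z (i, false) - δ)) (i, true) (z (i, true) - δ) with hz'
    have hz'v : ∀ v, z' v = if v.1 = i then z v - δ else z v := by
      rintro ⟨j, c⟩
      by_cases hj : j = i
      · subst hj; cases c <;> simp [hz']
      · simp [hz', hj]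
    have h2 : Inv φ {v | v ∈ U ∧ v.1 ≠ i} (R (A i p)) z' := by
      intro y hy
      refine ⟨(h1 y hy).1, fun j hj => (h1 y hy).2 j ⟨hj.1, ?_⟩⟩
      rintro (rfl | rfl) <;> exact hj.2 rfl
    have hT' : z' ≤ T := by
      intro v; rw [hz'v]; have := hT v; split_ifs <;> linarith
    intro y hy
    refine ih hl'.2 (h.A hi) (fun j hj c => ⟨hU j (by simp [hj]) c, by
      rintro rfl; exact hl'.1 hj⟩) hT' h2 y ?_
    intro v
    have := hy v
    simp only [hz'v, List.mem_cons] at this ⊢
    by_cases h1 : v.1 = i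
    · have h3 : v.1 ∉ l := by rw [h1]; exact hl'.1
      simpa [h1, h3, hl'.1] using this
    · simpa [h1] using this

/-- Barrier and selection together. -/
theorem select_of_inv {φ δ b t : ℝ} (hδ : 0 ≤ δ) (hφδ : 4 * φ * δ ≤ 1) (hbt : b ≤ t)
    {p : (ι × Bool → ℂ) → ℂ} (h : GB (fun _ => t) Set.univ p)
    (hI : Inv φ Set.univ (R p) (fun _ => b)) :
    ∃ σ : ι → Bool, ∀ x : ℝ, b - δ ≤ x →
      0 < R (DL ((Finset.univ : Finset ι).toList.map fun i => (i, σ i)) p) (fun _ => x) := by
  have h1 := barrier hδ hφδ (fun _ => t) _ (Finset.nodup_toList Finset.univ) h (by simp)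
    (z := fun _ => b) (fun _ => hbt) hI
  obtain ⟨σ, hσ⟩ := select (fun _ => t) (fun _ => b - δ) (fun _ => by
    show b - δ ≤ t; linarith) _ (Finset.nodup_toList Finset.univ) h (by simp)
    (fun y hy => h1 y (by simpa using hy))
  exact ⟨σ, fun x hx => hσ _ (fun _ => hx)⟩

end Pool.Agent.Lib.Selector
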