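import Mathlib

/-!
Multi-affine real functions with the Rayleigh property: positivity on orthants,
the interlacing step and the barrier step.
-/

namespace Pool.Agent.Lib.Selector

open Function

variable {V : Type*} [DecidableEq V]

/-- Discrete derivative in the variable `i`. -/
def D {K : Type*} [Ring K] (i : V) (p : (V → K) → K) : (V → K) → K :=
  fun z => p (update z i 1) - p (update z i 0)

/-- Affine in each variable. -/
def MA {K : Type*} [Ring K] (p : (V → K) → K) : Prop :=
  ∀ i z t, p (update z i t) = p (update z i 0) + t * D i p z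

section generic
variable {K : Type*} [CommRing K]

theorem D_update_self (i : V) (p : (V → K) → K) (z : V → K) (t : K) :
    D i p (update z i t) = D i p z := by
  simp [D]

theorem D_D_self (i : V) (p : (V → K) → K) : D i (D i p) = 0 := by
  funext z; simp [D]

theorem D_comm (i j : V) (p : (V → K) → K) : D i (D j p) = D j (D i p) := by
  by_cases h : i = j
  · subst h; rfl
  · funext z
    simp only [D]
    have e : ∀ s u : K, update (update z i s) j u = update (update z j u) i s := fun s u =>
      update_comm h s u z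
    rw [e, e, e, e]
    ring

theorem D_add (i : V) (p q : (V → K) → K) : D i (p + q) = D i p + D i q := by
  funext z; simp only [D, Pi.add_apply]; ring

theorem MA.shift {p : (V → K) → K} (h : MA p) (i : V) (z : V → K) (t : K) :
    p (update z i t) = p z + (t - z i) * D i p z := by
  have h1 := h i z t
  have h2 := h i z (z i)
  rw [update_eq_self] at h2
  rw [h1, h2]; ring

theorem MA.D {p : (V → K) → K} (h : MA p) (i : V) : MA (D i p) := by
  intro j z t
  by_cases hij : j = i
  · subst hij
    simp [D_update_self, D_D_self]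
  · rw [D_comm j i p]
    have e : ∀ s u : K, update (update z j s) i u = update (update z i u) j s := fun s u =>
      update_comm hij s u z
    have h1 := h j (update z i 1) t
    have h0 := h j (update z i 0) t
    show p (update (update z j t) i 1) - p (update (update z j t) i 0) =
      p (update (update z j 0) i 1) - p (update (update z j 0) i 0) +
        t * (Selector.D j p (update z i 1) - Selector.D j p (update z i 0))
    rw [e, e, e, e, h1, h0]; ring

theorem MA.add {p q : (V → K) → K} (hp : MA p) (hq : MA q) : MA (p + q) := by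
  intro i z t
  rw [D_add]
  simp only [Pi.add_apply]
  rw [hp i z t, hq i z t]; ring

/-- Expansion along the direction `e_a + e_b`. -/
theorem MA.expand2 {p : (V → K) → K} (h : MA p) {a b : V} (hab : a ≠ b) (y : V → K) (t : K) :
    p (update (update y a (y a + t)) b (y b + t)) =
      p y + t * (Selector.D a p y + Selector.D b p y) + t ^ 2 * Selector.D b (Selector.D a p) y := by
  rw [h.shift b, h.shift a, update_of_ne hab.symm, (h.D b).shift a, D_comm a b]
  ring

theorem MA.expandDa {p : (V → K) → K} (h : MA p) {a b : V} (hab : a ≠ b) (y : V → K) (t : K) :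
    Selector.D a p (update (update y a (y a + t)) b (y b + t)) =
      Selector.D a p y + t * Selector.D b (Selector.D a p) y := by
  rw [(h.D a).expand2 hab, D_D_self]
  have : Selector.D b (0 : (V → K) → K) = 0 := by funext z; simp [Selector.D]
  rw [this]; simp

theorem MA.expandDb {p : (V → K) → K} (h : MA p) {a b : V} (hab : a ≠ b) (y : V → K) (t : K) :
    Selector.D b p (update (update y a (y a + t)) b (y b + t)) =
      Selector.D b p y + t * Selector.D b (Selector.D a p) y := by
  rw [(h.D b).expand2 hab, D_D_self, D_comm a b p, D_D_self]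
  simp

end generic

/-- Multi-affine with the Rayleigh inequalities at all real points. -/
structure Ray (f : (V → ℝ) → ℝ) : Prop where
  ma : MA f
  ray : ∀ y i j, i ≠ j → f y * D j (D i f) y ≤ D i f y * D j f y

theorem update_ge {z y : V → ℝ} (h : z ≤ y) {i : V} {t : ℝ} (ht : z i ≤ t) : z ≤ update y i t := by
  intro k
  by_cases hk : k = i
  · subst hk; simpa using ht
  · rw [update_of_ne hk]; exact h k

theorem slope_nonneg {f : (V → ℝ) → ℝ} (hf : MA f) {z : V → ℝ} (hpos : ∀ y, z ≤ y → 0 ≤ f y)
    (i : V) {y : V → ℝ} (hy : z ≤ y) : 0 ≤ D i f y := by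
  by_contra hneg
  push Not at hneg
  have hfy := hpos y hy
  set t := (f y + 1) / (-D i f y) with ht
  have ht0 : 0 ≤ t := div_nonneg (by linarith) (by linarith)
  have := hpos (update y i (y i + t)) (update_ge hy (by have := hy i; linarith))
  rw [hf.shift] at this
  have e : t * D i f y = -(f y + 1) := by
    have : D i f y ≠ 0 := hneg.ne
    rw [ht]; field_simp
  have e2 : (y i + t - y i) * D i f y = -(f y + 1) := by rw [← e]; ring
  linarith

/-- Propagation of a property along coordinate moves inside an orthant. -/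
theorem orthant_induction [Fintype V] {z : V → ℝ} (P : (V → ℝ) → Prop)
    (hstep : ∀ y, z ≤ y → P y → ∀ i t, z i ≤ t → P (update y i t))
    {y : V → ℝ} (hy : z ≤ y) (hP : P y) {w : V → ℝ} (hw : z ≤ w) : P w := by
  have key : ∀ s : Finset V, z ≤ (fun k => if k ∈ s then w k else y k) ∧
      P (fun k => if k ∈ s then w k else y k) := by
    intro s
    induction s using Finset.induction_on with
    | empty => simpa using ⟨hy, hP⟩
    | insert a s ha ih =>
      have e : (fun k => if k ∈ insert a s then w k else y k) =
          update (fun k => if k ∈ s then w k else y k) a (w a) := by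
        funext k
        by_cases hk : k = a
        · subst hk; simp
        · simp [hk]
      rw [e]
      exact ⟨update_ge ih.1 (hw a), hstep _ ih.1 ih.2 a _ (hw a)⟩
  simpa using (key Finset.univ).2

/-- Monotone version: moves only go upwards from the corner. -/
theorem orthant_induction_up [Fintype V] {z : V → ℝ} (P : (V → ℝ) → Prop)
    (hstep : ∀ y, z ≤ y → P y → ∀ i t, y i ≤ t → P (update y i t))
    (hP : P z) {w : V → ℝ} (hw : z ≤ w) : P w := by
  have key : ∀ s : Finset V, z ≤ (fun k => if k ∈ s then w k else z k) ∧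
      P (fun k => if k ∈ s then w k else z k) := by
    intro s
    induction s using Finset.induction_on with
    | empty => simpa using hP
    | insert a s ha ih =>
      have e : (fun k => if k ∈ insert a s then w k else z k) =
          update (fun k => if k ∈ s then w k else z k) a (w a) := by
        funext k
        by_cases hk : k = a
        · subst hk; simp
        · simp [hk]
      rw [e]
      refine ⟨update_ge ih.1 (hw a), hstep _ ih.1 ih.2 a _ ?_⟩
      simpa [ha] using hw a
  simpa using (key Finset.univ).2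

/-- A nonzero derivative of a Rayleigh function positive on an orthant is positive there. -/
theorem Ray.D_pos [Fintype V] {q : (V → ℝ) → ℝ} (hq : Ray q) {z : V → ℝ}
    (hpos : ∀ y, z ≤ y → 0 < q y) (i : V) {T : V → ℝ} (hT : z ≤ T) (hne : D i q T ≠ 0)
    {y : V → ℝ} (hy : z ≤ y) : 0 < D i q y := by
  have hnn : ∀ y, z ≤ y → 0 ≤ D i q y := fun y hy =>
    slope_nonneg hq.ma (fun y hy => (hpos y hy).le) i hy
  rcases (hnn y hy).lt_or_eq with h | h
  · exact h
  exfalso
  apply hne
  refine orthant_induction (z := z) (fun w => D i q w = 0) ?_ hy h.symm hT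
  intro w hw h0 j t _
  rw [(hq.ma.D i).shift, h0]
  have : D j (D i q) w = 0 := by
    by_cases hij : i = j
    · subst hij; rw [D_D_self]; rfl
    · have h1 := hq.ray w i j hij
      have h2 := slope_nonneg (hq.ma.D i) hnn j hw
      rw [h0] at h1
      have h3 := hpos w hw
      nlinarith
  rw [this]; simp

/-- The interlacing step. -/
theorem pos_of_corner [Fintype V] {f : (V → ℝ) → ℝ} (hf : Ray f) {z : V → ℝ} (b : V)
    (hg : ∀ y, z ≤ y → 0 < D b f y) (hz : 0 < f z) {w : V → ℝ} (hw : z ≤ w) : 0 < f w := by
  refine orthant_induction_up (z := z) (fun y => 0 < f y) ?_ hz hw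
  intro y hy hfy j t ht
  have hgy := hg y hy
  by_cases hj : j = b
  · subst hj
    rw [hf.ma.shift]
    have : 0 ≤ (t - y j) * D j f y := mul_nonneg (by linarith) hgy.le
    linarith
  · have h1 := hf.ray y b j (Ne.symm hj)
    have h2 := hg (update y j t) (update_ge hy ((hy j).trans ht))
    rw [(hf.ma.D b).shift] at h2
    rw [hf.ma.shift]
    have ht' : 0 ≤ t - y j := by linarith
    by_contra hneg
    push Not at hneg
    have h3 : (f y + (t - y j) * D j f y) * D b f y ≤ 0 := mul_nonpos_of_nonpos_of_nonneg hneg hgy.le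
    have h4 : 0 < f y * (D b f y + (t - y j) * D j (D b f) y) := mul_pos hfy h2
    nlinarith [mul_le_mul_of_nonneg_left h1 ht']

theorem quad_step {A B c A' B' c' δ φ : ℝ} (hc : 0 < c) (hB : 0 < B) (hA : 0 ≤ A)
    (h : ∀ t : ℝ, (c + t * B + t ^ 2 * A) * (B' + 2 * t * A') ≤
      (B + 2 * t * A) * (c' + t * B' + t ^ 2 * A'))
    (hδ : 0 ≤ δ) (hδB : 2 * δ * B ≤ c) (hpos : 0 < B - 2 * δ * A) (hφ : c' ≤ φ * c) :
    B' - 2 * δ * A' ≤ φ * (B - 2 * δ * A) := by
  have h0 : 0 ≤ B * c' - B' * c := by have := h 0; nlinarith
  have h1 := h (-c / B)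
  have key : (A * c' - A' * c) * c ≤ (B * c' - B' * c) * B := by
    set s := c / B with hs
    have hsB : s * B = c := by rw [hs]; field_simp
    have hs0 : 0 < s := div_pos hc hB
    have e : -c / B = -s := by rw [hs]; ring
    rw [e] at h1
    have h2 : 0 ≤ (A * B' - A' * B) * s ^ 2 - 2 * (A * c' - A' * c) * s + (B * c' - B' * c) := by
      nlinarith
    have h3 : c * (A * B' - A' * B) = B * (A * c' - A' * c) - A * (B * c' - B' * c) := by ring
    have h4 : 0 ≤ c * ((A * B' - A' * B) * s ^ 2 - 2 * (A * c' - A' * c) * s + (B * c' - B' * c)) :=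
      mul_nonneg hc.le h2
    have h5 : c * ((A * B' - A' * B) * s ^ 2 - 2 * (A * c' - A' * c) * s + (B * c' - B' * c)) =
        - (A * c' - A' * c) * c * s - A * (B * c' - B' * c) * s ^ 2 + c * (B * c' - B' * c) := by
      have : c * ((A * B' - A' * B) * s ^ 2) =
          (B * (A * c' - A' * c) - A * (B * c' - B' * c)) * s ^ 2 := by rw [← h3]; ring
      have h6 : B * (A * c' - A' * c) * s ^ 2 = (A * c' - A' * c) * c * s := by
        rw [← hsB]; ring
      nlinarith
    have h7 : 0 ≤ A * (B * c' - B' * c) * s ^ 2 := by positivity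
    have h8 : (A * c' - A' * c) * c * s ≤ c * (B * c' - B' * c) := by linarith
    have h9 : (A * c' - A' * c) * s ≤ (B * c' - B' * c) := by
      have : c * ((A * c' - A' * c) * s) ≤ c * (B * c' - B' * c) := by linarith
      exact le_of_mul_le_mul_left this hc
    have := mul_le_mul_of_nonneg_right h9 hB.le
    have e3 : (A * c' - A' * c) * s * B = (A * c' - A' * c) * c := by
      rw [mul_assoc, hsB]
    linarith
  have key2 : 2 * δ * (A * c' - A' * c) ≤ B * c' - B' * c := by
    by_cases hW : 0 ≤ A * c' - A' * c
    · have : 2 * δ * B * (A * c' - A' * c) ≤ c * (A * c' - A' * c) :=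
        mul_le_mul_of_nonneg_right hδB hW
      have : B * (2 * δ * (A * c' - A' * c)) ≤ B * (B * c' - B' * c) := by nlinarith
      exact le_of_mul_le_mul_left this hB
    · push Not at hW
      nlinarith
  have h10 : c * (B' - 2 * δ * A') ≤ c' * (B - 2 * δ * A) := by nlinarith
  have h11 : c' * (B - 2 * δ * A) ≤ φ * c * (B - 2 * δ * A) :=
    mul_le_mul_of_nonneg_right hφ hpos.le
  have : c * (B' - 2 * δ * A') ≤ c * (φ * (B - 2 * δ * A)) := by nlinarith
  exact le_of_mul_le_mul_left this hc

/-- The barrier invariant on the orthant above `z`. -/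
def Inv (φ : ℝ) (U : Set V) (f : (V → ℝ) → ℝ) (z : V → ℝ) : Prop :=
  ∀ y, z ≤ y → 0 < f y ∧ ∀ j ∈ U, D j f y ≤ φ * f y

/-- The barrier step. -/
theorem barrier_step [Fintype V] {f : (V → ℝ) → ℝ} (hf : Ray f) {φ δ : ℝ} (hδ : 0 ≤ δ)
    (hφδ : 4 * φ * δ ≤ 1) {U : Set V} {z : V → ℝ} (hI : Inv φ U f z) {a b : V} (hab : a ≠ b)
    (ha : a ∈ U) (hb : b ∈ U) {T : V → ℝ} (hT : z ≤ T) (hne : D a f T ≠ 0) :
    Inv φ (U \ {a, b}) (D a f + D b f) (update (update z a (z a - δ)) b (z b - δ)) := by
  intro w hw
  set y := update (update w a (w a + δ)) b (w b + δ) with hy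
  have hzy : z ≤ y := by
    intro k
    have := hw k
    by_cases hkb : k = b
    · subst hkb; simp [hy] at this ⊢; linarith
    · by_cases hka : k = a
      · subst hka; simp [hy, hkb] at this ⊢; linarith
      · simpa [hy, hkb, hka] using this
  have hwy : w = update (update y a (y a + -δ)) b (y b + -δ) := by
    funext k
    by_cases hkb : k = b
    · subst hkb; simp [hy]
    · by_cases hka : k = a
      · subst hka; simp [hy, hkb]
      · simp [hy, hkb, hka]
  have hpos : ∀ y, z ≤ y → 0 < f y := fun y hy => (hI y hy).1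
  have hc := hpos y hzy
  have hDa : 0 < D a f y := hf.D_pos hpos a hT hne hzy
  have hnn : ∀ i y, z ≤ y → 0 ≤ D i f y := fun i y hy =>
    slope_nonneg hf.ma (fun y hy => (hpos y hy).le) i hy
  have hDb : 0 ≤ D b f y := hnn b y hzy
  have hA : 0 ≤ D b (D a f) y := slope_nonneg (hf.ma.D a) (hnn a) b hzy
  have hra := (hI y hzy).2 a ha
  have hrb := (hI y hzy).2 b hb
  have hδB : 2 * δ * (D a f y + D b f y) ≤ f y := by nlinarith
  have hray := hf.ray y a b hab
  have hpos2 : 0 < (D a f y + D b f y) - 2 * δ * D b (D a f) y := by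
    have h1 : (D a f y + D b f y) * (2 * δ * D b (D a f) y) ≤ f y * D b (D a f) y := by nlinarith
    have h2 : (D a f y + D b f y) * (2 * δ * D b (D a f) y) <
        (D a f y + D b f y) * (D a f y + D b f y) := by nlinarith
    have := lt_of_mul_lt_mul_left h2 (by linarith)
    linarith
  have hval : (D a f + D b f) w = (D a f y + D b f y) - 2 * δ * D b (D a f) y := by
    rw [hwy, Pi.add_apply, hf.ma.expandDa hab, hf.ma.expandDb hab]; ring
  refine ⟨by rw [hval]; exact hpos2, ?_⟩
  intro j hj
  have hja : a ≠ j := by rintro rfl; exact hj.2 (by simp)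
  have hjb : b ≠ j := by rintro rfl; exact hj.2 (by simp)
  have hval' : D j (D a f + D b f) w =
      (D a (D j f) y + D b (D j f) y) - 2 * δ * D b (D a (D j f)) y := by
    rw [D_add, D_comm j a, D_comm j b, hwy, Pi.add_apply, (hf.ma.D j).expandDa hab,
      (hf.ma.D j).expandDb hab]; ring
  rw [hval, hval']
  refine quad_step hc (by linarith) hA ?_ hδ hδB hpos2 ((hI y hzy).2 j hj.1)
  intro t
  have h1 := hf.ray (update (update y a (y a + t)) b (y b + t)) a j hja
  have h2 := hf.ray (update (update y a (y a + t)) b (y b + t)) b j hjb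
  rw [D_comm j a, hf.ma.expand2 hab y t, hf.ma.expandDa hab y t, (hf.ma.D j).expandDa hab y t,
    (hf.ma.D j).expand2 hab y t] at h1
  rw [D_comm j b, hf.ma.expand2 hab y t, hf.ma.expandDb hab y t, (hf.ma.D j).expandDb hab y t,
    (hf.ma.D j).expand2 hab y t] at h2
  nlinarith

end Pool.Agent.Lib.Selector
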