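import Pool.Agent.Lib.Selector.RealPart

/-!
Stable multi-affine functions: closure under derivatives, Rayleigh inequalities, and the
abstract selection theorem.
-/

namespace Pool.Agent.Lib.Selector

open Function Complex

variable {V : Type*} [DecidableEq V]

/-- Real points as complex points. -/
def ofR (y : V → ℝ) : V → ℂ := fun k => (y k : ℂ)

theorem ofR_update (y : V → ℝ) (i : V) (t : ℝ) : ofR (update y i t) = update (ofR y) i (t : ℂ) := by
  funext k
  by_cases h : k = i
  · subst h; simp [ofR]
  · simp [ofR, h]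

/-- Restriction to real points. -/
def R (p : (V → ℂ) → ℂ) : (V → ℝ) → ℝ := fun y => (p (ofR y)).re

theorem R_D (i : V) (p : (V → ℂ) → ℂ) : R (D i p) = D i (R p) := by
  funext y
  simp [R, D, ofR_update]

omit [DecidableEq V] in
theorem R_add (p q : (V → ℂ) → ℂ) : R (p + q) = R p + R q := by
  funext y
  simp [R]

/-- Real stable multi-affine functions. -/
structure Good (p : (V → ℂ) → ℂ) : Prop where
  ma : MA p
  cont : Continuous p
  real : ∀ y : V → ℝ, (p (ofR y)).im = 0
  stable : ∀ z : V → ℂ, (∀ k, 0 < (z k).im) → p z ≠ 0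

theorem im_mul_conj_nonneg {u v : ℂ} (h : ∀ t : ℂ, 0 < t.im → v + t * u ≠ 0) :
    0 ≤ (v * (starRingEnd ℂ) u).im := by
  by_cases hu : u = 0
  · simp [hu]
  · by_contra hneg
    push Not at hneg
    have hn : 0 < normSq u := normSq_pos.mpr hu
    apply h (-v / u)
    · have e : -v / u = -(v * (starRingEnd ℂ) u) / (normSq u : ℂ) := by
        rw [← mul_conj]
        have : (starRingEnd ℂ) u ≠ 0 := by simpa using hu
        field_simp
      rw [e, div_ofReal_im]
      apply div_pos _ hn
      simpa using hneg
    · field_simp; ring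

theorem continuous_D {p : (V → ℂ) → ℂ} (h : Continuous p) (i : V) : Continuous (D i p) := by
  unfold D
  exact (h.comp (continuous_id.update i continuous_const)).sub
    (h.comp (continuous_id.update i continuous_const))

theorem D_real {p : (V → ℂ) → ℂ} (h : ∀ y : V → ℝ, (p (ofR y)).im = 0) (i : V) (y : V → ℝ) :
    (D i p (ofR y)).im = 0 := by
  have h1 := h (update y i 1)
  have h0 := h (update y i 0)
  rw [ofR_update] at h1 h0
  simp only [D, sub_im]
  simp only [ofReal_one, ofReal_zero] at h1 h0
  rw [h1, h0, sub_zero]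

theorem update_im_pos {z : V → ℂ} (hz : ∀ k, 0 < (z k).im) (i : V) {t : ℂ} (ht : 0 < t.im) :
    ∀ k, 0 < (update z i t k).im := by
  intro k
  by_cases h : k = i
  · subst h; simpa using ht
  · rw [update_of_ne h]; exact hz k

omit [DecidableEq V] in
/-- A closed condition that holds on the product of upper half planes holds at real points. -/
theorem real_limit {F : (V → ℂ) → ℝ} (hF : Continuous F)
    (h : ∀ z : V → ℂ, (∀ k, 0 < (z k).im) → 0 ≤ F z) (y : V → ℝ) : 0 ≤ F (ofR y) := by
  let γ : ℝ → V → ℂ := fun η k => (y k : ℂ) + η * I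
  have hγ : Continuous γ := by
    refine continuous_pi fun k => ?_
    fun_prop
  have h0 : γ 0 = ofR y := by funext k; simp [γ, ofR]
  have hc : Filter.Tendsto (fun η => F (γ η)) (nhdsWithin 0 (Set.Ioi 0)) (nhds (F (γ 0))) :=
    ((hF.comp hγ).tendsto 0).mono_left nhdsWithin_le_nhds
  rw [← h0]
  refine ge_of_tendsto hc ?_
  filter_upwards [self_mem_nhdsWithin] with η hη
  apply h
  intro k
  simpa [γ] using hη

theorem Good.ray {p : (V → ℂ) → ℂ} (hp : Good p) : Ray (R p) := by
  have hma : MA (R p) := by
    intro i y t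
    rw [← R_D]
    simp only [R]
    rw [ofR_update, ofR_update, hp.ma i (ofR y) t]
    simp [D_real hp.real i y]
  refine ⟨hma, ?_⟩
  intro y i j hij
  -- u z = D j p (z, i := I), v z = p (z, i := I, j := 0)
  have key : 0 ≤ (p (update (update (ofR y) i I) j 0) *
      (starRingEnd ℂ) (D j p (update (ofR y) i I))).im := by
    refine real_limit (F := fun z => (p (update (update z i I) j 0) *
      (starRingEnd ℂ) (D j p (update z i I))).im) ?_ ?_ y
    · have c1 : Continuous fun z : V → ℂ => update z i I := continuous_id.update i continuous_const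
      have c2 : Continuous fun z : V → ℂ => update (update z i I) j 0 :=
        c1.update j continuous_const
      exact continuous_im.comp ((hp.cont.comp c2).mul
        (continuous_conj.comp ((continuous_D hp.cont j).comp c1)))
    · intro z hz
      apply im_mul_conj_nonneg
      intro t ht
      rw [← hp.ma j]
      exact hp.stable _ (update_im_pos (update_im_pos hz i (by simp)) j ht)
  rw [hp.ma.shift j, hp.ma.shift i, (hp.ma.D j).shift i, update_of_ne hij.symm] at key
  rw [← R_D, ← R_D, ← R_D, D_comm j i]
  simp only [R]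
  have r0 := hp.real y
  have r1 := D_real hp.real i y
  have r2 := D_real hp.real j y
  have r3 := D_real (D_real hp.real j) i y
  generalize p (ofR y) = c at *
  generalize D i p (ofR y) = a at *
  generalize D j p (ofR y) = b at *
  generalize D i (D j p) (ofR y) = g at *
  simp [ofR, r0, r1, r2, r3] at key
  nlinarith

theorem Good.D_eq_zero_step {p : (V → ℂ) → ℂ} (hp : Good p) (i : V) {w : V → ℂ}
    (hw : ∀ k, 0 < (w k).im) (h0 : D i p w = 0) (j : V) : D j (D i p) w = 0 := by
  by_cases hij : j = i
  · subst hij; rw [D_D_self]; rfl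
  set a1 := D j (D i p) w with ha1
  set b0 := p w with hb0
  have hb0ne : b0 ≠ 0 := hp.stable w hw
  set b1 := D j p w - w i * a1 with hb1
  have key : ∀ τ : ℂ, 0 < (w j + τ).im →
      0 ≤ ((b0 + τ * b1) * (starRingEnd ℂ) (τ * a1)).im := by
    intro τ hτ
    apply im_mul_conj_nonneg
    intro t ht
    have := hp.stable (update (update w j (w j + τ)) i t) (update_im_pos (update_im_pos hw j hτ) i ht)
    rw [hp.ma.shift i, hp.ma.shift j, (hp.ma.D i).shift j, update_of_ne (Ne.symm hij), h0] at this
    convert this using 1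
    rw [hb1, ← ha1, ← hb0]; ring
  by_contra hne
  set κ := I * (b0 * (starRingEnd ℂ) a1) with hκ
  have hn : 0 < normSq (b0 * (starRingEnd ℂ) a1) := by
    apply normSq_pos.mpr
    apply mul_ne_zero hb0ne
    simpa using hne
  set N := normSq (b0 * (starRingEnd ℂ) a1) with hN
  set C := (b1 * (starRingEnd ℂ) a1).im with hC
  have e : ∀ ε : ℝ, ((b0 + ε * κ * b1) * (starRingEnd ℂ) (ε * κ * a1)).im =
      -ε * N + ε ^ 2 * N * C := by
    intro ε
    simp only [hN, hC, hκ, normSq_apply]
    simp
    ring
  have ev : ∀ᶠ ε : ℝ in nhdsWithin 0 (Set.Ioi 0), 0 < (w j + ε * κ).im ∧ ε * C < 1 := by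
    apply Filter.Eventually.filter_mono nhdsWithin_le_nhds
    apply Filter.Eventually.and
    · have c : Continuous fun ε : ℝ => (w j + ε * κ).im := by fun_prop
      apply c.continuousAt.eventually_const_lt
      simpa using hw j
    · have c : Continuous fun ε : ℝ => ε * C := by fun_prop
      apply c.continuousAt.eventually_lt_const
      simp
  obtain ⟨ε, ⟨h1, h2⟩, h3⟩ := (ev.and self_mem_nhdsWithin).exists
  have h4 := key _ h1
  rw [e] at h4
  have h3' : 0 < ε := h3
  have : ε * N * (ε * C) < ε * N * 1 := mul_lt_mul_of_pos_left h2 (mul_pos h3' hn)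
  nlinarith

theorem Good.D [Fintype V] {p : (V → ℂ) → ℂ} (hp : Good p) (i : V) {T : V → ℝ}
    (hne : D i p (ofR T) ≠ 0) : Good (D i p) := by
  refine ⟨hp.ma.D i, continuous_D hp.cont i, D_real hp.real i, ?_⟩
  intro w hw h0
  apply hne
  have all : ∀ z : V → ℂ, (∀ k, 0 < (z k).im) → Selector.D i p z = 0 := by
    intro z hz
    have key : ∀ s : Finset V, (∀ k, 0 < ((fun k => if k ∈ s then z k else w k) k).im) ∧
        Selector.D i p (fun k => if k ∈ s then z k else w k) = 0 := by
      intro s
      induction s using Finset.induction_on with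
      | empty => simpa using ⟨hw, h0⟩
      | insert a s ha ih =>
        have e : (fun k => if k ∈ insert a s then z k else w k) =
            update (fun k => if k ∈ s then z k else w k) a (z a) := by
          funext k
          by_cases hk : k = a
          · subst hk; simp
          · simp [hk]
        rw [e]
        refine ⟨update_im_pos ih.1 a (hz a), ?_⟩
        rw [(hp.ma.D i).shift, ih.2, hp.D_eq_zero_step i ih.1 ih.2 a]; simp
    simpa using (key Finset.univ).2
  have := real_limit (F := fun z => -‖Selector.D i p z‖) (continuous_D hp.cont i).norm.neg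
    (fun z hz => by simp [all z hz]) T
  have h2 : ‖Selector.D i p (ofR T)‖ ≤ 0 := by linarith
  exact norm_le_zero_iff.mp h2

theorem Good.im_pos {p : (V → ℂ) → ℂ} (hp : Good p) (i : V) (hi : Good (Selector.D i p))
    {z : V → ℂ} (hz : ∀ k, 0 < (z k).im) :
    0 < (p z * (starRingEnd ℂ) (Selector.D i p z)).im := by
  have h1 : 0 ≤ (p (update z i 0) * (starRingEnd ℂ) (Selector.D i p z)).im := by
    apply im_mul_conj_nonneg
    intro t ht
    rw [← hp.ma i]
    exact hp.stable _ (update_im_pos hz i ht)
  have h2 := hp.ma i z (z i)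
  rw [update_eq_self] at h2
  have h3 : 0 < normSq (Selector.D i p z) := normSq_pos.mpr (hi.stable z hz)
  rw [h2, add_mul, mul_assoc, mul_conj, add_im]
  have : 0 < (z i * (normSq (Selector.D i p z) : ℂ)).im := by
    simpa using mul_pos (hz i) h3
  linarith

theorem Good.DD {p : (V → ℂ) → ℂ} (hp : Good p) {a b : V} (ha : Good (Selector.D a p))
    (hb : Good (Selector.D b p)) : Good (Selector.D a p + Selector.D b p) := by
  refine ⟨ha.ma.add hb.ma, ha.cont.add hb.cont, ?_, ?_⟩
  · intro y; simp [ha.real y, hb.real y]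
  · intro z hz h0
    have h1 := hp.im_pos a ha hz
    have h2 := hp.im_pos b hb hz
    have h3 : (p z * (starRingEnd ℂ) (Selector.D a p z + Selector.D b p z)).im = 0 := by
      rw [Pi.add_apply] at h0; rw [h0]; simp
    rw [map_add, mul_add, add_im] at h3
    linarith

/-- Iterated derivative along a list. -/
def DL : List V → ((V → ℂ) → ℂ) → ((V → ℂ) → ℂ)
  | [], p => p
  | i :: l, p => DL l (D i p)

theorem DL_add (l : List V) (p q : (V → ℂ) → ℂ) : DL l (p + q) = DL l p + DL l q := by
  induction l generalizing p q with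
  | nil => rfl
  | cons i l ih => simp only [DL]; rw [D_add, ih]

/-- All square-free derivatives in variables from `U` are positive at `T`. -/
def Big (T : V → ℝ) (U : Set V) (p : (V → ℂ) → ℂ) : Prop :=
  ∀ l : List V, l.Nodup → (∀ x ∈ l, x ∈ U) → 0 < R (DL l p) T

theorem Big.mono {T : V → ℝ} {U U' : Set V} {p : (V → ℂ) → ℂ} (h : Big T U p) (hU : U' ⊆ U) :
    Big T U' p := fun l hl hm => h l hl fun x hx => hU (hm x hx)

theorem Big.D {T : V → ℝ} {U : Set V} {p : (V → ℂ) → ℂ} (h : Big T U p) {i : V} (hi : i ∈ U) :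
    Big T (U \ {i}) (D i p) := by
  intro l hl hm
  refine h (i :: l) (List.nodup_cons.mpr ⟨fun hx => (hm i hx).2 rfl, hl⟩) ?_
  intro x hx
  rcases List.mem_cons.mp hx with rfl | hx
  · exact hi
  · exact (hm x hx).1

theorem Big.add {T : V → ℝ} {U : Set V} {p q : (V → ℂ) → ℂ} (hp : Big T U p) (hq : Big T U q) :
    Big T U (p + q) := by
  intro l hl hm
  rw [DL_add, R_add]
  exact add_pos (hp l hl hm) (hq l hl hm)

theorem Big.pos {T : V → ℝ} {U : Set V} {p : (V → ℂ) → ℂ} (h : Big T U p) : 0 < R p T :=
  h [] List.nodup_nil (by simp)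

theorem Big.ne {T : V → ℝ} {U : Set V} {p : (V → ℂ) → ℂ} (h : Big T U p) : p (ofR T) ≠ 0 := by
  intro h0
  have := h.pos
  simp [R, h0] at this

end Pool.Agent.Lib.Selector
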